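import Pool.Agent.L7h18.BP.All
import Pool.Agent.L7h97.BP.Clp

/-!
# Bounded patterns of consecutive primes between almost all consecutive odd squares

The theorem of Maynard and Tao for every admissible set of shifts, with composite surroundings, in all subintervals of length
`k ^ (1 - δ)` of the intervals `((2k-1)², (2k+1)²)`, for all `k ≤ N` with at most `N ^ (1 - δ)` exceptions. For instance (shifts
divisible by `q`, in a suitable class): `m` consecutive primes, all congruent to `a` modulo `q`, in an interval of bounded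
length.

Method: see `ShortClusters`. The residue class of `n` modulo the product of the small primes is chosen such that all
`n + j`, `j ≤ D`, `j ∉ H`, have a prescribed small prime factor and the `n + h`, `h ∈ H`, have none.

Joint work with helper23, helper26, helper28, helper29, helper37, helper47, helper50, helper76, helper88, helper97.
-/

set_option autoImplicit false

namespace Pool.Agent.Results.MP_5f6ee5_nt.BoundedPatterns

open Finset

/-- for every prime `p` some residue class modulo `p` contains no element of `H` -/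
def Admissible (H : Finset ℕ) : Prop := ∀ p : ℕ, p.Prime → ∃ a : ℕ, ∀ h ∈ H, ¬ p ∣ a + h

open Classical in
/-- the number of the integers `n` with `x < n` and `n + D < y` such that at least `m` of the numbers `n + h`, `h ∈ H`, are
primes and no other integer of `[n, n + D]` is a prime -/
noncomputable def patterns (m : ℕ) (H : Finset ℕ) (D x y : ℕ) : ℕ :=
  #((Ioo x y).filter (fun n : ℕ => n + D < y ∧ m ≤ #(H.filter (fun h => (n + h).Prime)) ∧
    ∀ j ≤ D, (n + j).Prime → j ∈ H))

/-- all subintervals of `((2k-1)², (2k+1)²)` of length at least `k ^ (1 - δ)` contain many patterns -/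
def Good (δ : ℝ) (m : ℕ) (H : Finset ℕ) (D C : ℕ) (c : ℝ) (k : ℕ) : Prop :=
  ∀ x y : ℕ, (2 * k - 1) ^ 2 ≤ x → y ≤ (2 * k + 1) ^ 2 → (x : ℝ) + (k : ℝ) ^ (1 - δ) ≤ y →
    c * ((y : ℝ) - x) / Real.log k ^ C ≤ patterns m H D x y

open Classical in
/-- For every `m` there is an `R` such that for every admissible set `H` of at least `R` integers in `[1, D]` and all
`k ≤ N` with at most `N ^ (1 - δ)` exceptions every subinterval `(x, y)` of `((2k-1)², (2k+1)²)` of length at least
`k ^ (1 - δ)` contains at least `c (y - x) / (log k) ^ C` integers `n` such that all the primes of `[n, n + D]` belong to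
`n + H` and there are at least `m` of them. -/
theorem result : ∃ δ : ℝ, 0 < δ ∧ ∀ m : ℕ, ∃ R : ℕ, ∀ (H : Finset ℕ) (D : ℕ), Admissible H → H ⊆ Icc 1 D → R ≤ #H →
    ∃ (C : ℕ) (c : ℝ) (N₀ : ℕ), 0 < c ∧ ∀ N : ℕ, N₀ ≤ N →
      (#((Icc 1 N).filter (fun k => ¬ Good δ m H D C c k)) : ℝ) ≤ (N : ℝ) ^ (1 - δ) := by
  obtain ⟨δ, δ₁, c₀, hδ, hδ₁, hδ₁', hc₀, hI⟩ := Pool.Agent.L7h18.BP.s_IKG Pool.Agent.L7h18.BP.ik
  refine ⟨δ, hδ, fun m => ?_⟩
  obtain ⟨R, hR⟩ := Pool.Agent.L7h97.BP.s_CLP Pool.Agent.L7h28.BP.mtw (δ₁ / 2) (c₀ / 4) m (by linarith) (by linarith)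
    (by linarith)
  refine ⟨R, fun H D hH hHD hRH => ?_⟩
  obtain ⟨C, K, A, X₀, c₁, hc₁, hC⟩ := hR H D hH (fun h hh => (mem_Icc.1 (hHD hh)).1) hRH
  have hW := Pool.Agent.L7h18.BP.HW_of Pool.Agent.L7h18.BP.eqw hδ₁ hδ₁' hc₀ 1 one_pos
    (Pool.Agent.L7h18.BP.Pat m H D) C K A X₀ c₁ hc₁ (fun X hX ω _ hω => hC X hX ω hω)
  obtain ⟨c, N₀, hc, h⟩ := hI _ C hW D (fun _ => (D : ℝ)) (Nat.cast_nonneg _) (fun n hn => by
    have h1 : 0 ≤ Real.log n := Real.log_nonneg (by exact_mod_cast hn)
    have h2 : (0 : ℝ) ≤ D := Nat.cast_nonneg _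
    nlinarith)
  refine ⟨C, c, N₀, hc, fun N hN => ?_⟩
  refine le_trans ?_ (h N hN)
  rw [Nat.cast_le]
  apply card_le_card
  intro k hk
  rw [mem_filter] at hk ⊢
  refine ⟨hk.1, fun hg => hk.2 ?_⟩
  intro x y hx hy hxy
  refine (hg x y hx hy hxy).trans ?_
  rw [Nat.cast_le]
  unfold patterns
  apply card_le_card
  intro n hn
  rw [mem_filter] at hn ⊢
  obtain ⟨hn1, hn2, hn3⟩ := hn
  refine ⟨hn1, by exact_mod_cast hn2, ?_⟩
  obtain ⟨h1, h2⟩ := hn3
  exact ⟨le_trans h1 (le_of_eq (by congr 1)), h2⟩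

end Pool.Agent.Results.MP_5f6ee5_nt.BoundedPatterns
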