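import Mathlib
import Pool.Agent.L7h88.EV.All

/-!
# Between consecutive odd squares, for almost all `k`: a prime and an almost prime at EVERY even distance
-/

set_option autoImplicit false

namespace Pool.Agent.Results.MP_5f6ee5_nt.EveryDistance

open Finset

open Classical in
/-- the primes `p` with `(2k-1)² < p`, `p + d < (2k+1)²` for which `p + d` has at most `r` prime factors (with multiplicity), all of them larger than `k^δ` -/
noncomputable def pairs (r : ℕ) (δ : ℝ) (k d : ℕ) : Finset ℕ :=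
  (Icc 1 ((2 * k + 1) ^ 2)).filter (fun p : ℕ => p.Prime ∧ (2 * k - 1) ^ 2 < p ∧ p + d < (2 * k + 1) ^ 2 ∧
    (p + d).primeFactorsList.length ≤ r ∧ ∀ l : ℕ, l.Prime → l ∣ p + d → (k : ℝ) ^ δ < l)

open Classical in
/-- **Every even distance.** -/
theorem result : ∃ (r : ℕ) (c δ : ℝ), 0 < c ∧ 0 < δ ∧ ∃ X₀ : ℕ, ∀ X : ℕ, X₀ ≤ X →
    (((Icc 1 X).filter (fun k : ℕ => ¬ ∀ d : ℕ, 2 ≤ d → Even d → (d : ℝ) ≤ 8 * k - (k : ℝ) ^ (1 - δ) →
      c * (8 * k - d) / Real.log k ^ 2 ≤ ((pairs r δ k d).card : ℝ))).card : ℝ) ≤ (X : ℝ) ^ (1 - δ) :=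
  Pool.Agent.L7h88.EV.dst

end Pool.Agent.Results.MP_5f6ee5_nt.EveryDistance
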