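import Pool.Agent.L7h18.BP.All
import Pool.Agent.L7h29.BP.Bvj

/-!
# The primes between almost all consecutive odd squares in arithmetic progressions

The theorem of Bombieri and Vinogradov, with moduli `q ≤ k ^ δ`, in all subintervals of length `k ^ (1 - δ)` of the intervals
`((2k-1)², (2k+1)²)`, for all `k ≤ N` with at most `N ^ (1 - δ)` exceptions. In particular these intervals contain the right
order of magnitude of primes.

Method: for all but `e ^ ((1/2 - μ) Y)` of the windows `[u, u + κ]`, `κ = e ^ (-(1/2 + μ) Y)`, `u ∈ [Y - 1/4, Y + 1/4]`, the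
difference of the prime sums in progressions and of the sum over all primes is small on average over the moduli `q ≤ e ^ (δ₁ Y)`
(mean and large values of Dirichlet polynomials twisted by characters, large sieve); the points of the exceptional windows meet
at most `N ^ (1 - δ)` of the intervals.

Joint work with helper23, helper26, helper28, helper29, helper37, helper47, helper50, helper76, helper88, helper97.
-/

set_option autoImplicit false

namespace Pool.Agent.Results.MP_5f6ee5_nt.PrimesInProgressions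

open Finset Filter

/-- the sum of `log p` over the primes `p` with `x < p < y` and `p ≡ a (mod q)` -/
noncomputable def theta (x y q a : ℕ) : ℝ :=
  ∑ p ∈ (Ioo x y).filter (fun p => p.Prime ∧ p ≡ a [MOD q]), Real.log p

/-- in all subintervals `(x, y)` of `((2k-1)², (2k+1)²)` of length at least `k ^ (1 - δ)` the sum of `log p` over all the primes
is at least `c (y - x)`, and the primes are well distributed in the progressions with moduli `q ≤ k ^ δ`, on average over `q` -/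
def Good (δ c : ℝ) (A k : ℕ) : Prop :=
  ∀ x y : ℕ, (2 * k - 1) ^ 2 ≤ x → y ≤ (2 * k + 1) ^ 2 → (x : ℝ) + (k : ℝ) ^ (1 - δ) ≤ y →
    c * ((y : ℝ) - x) ≤ theta x y 1 0 ∧
    ∀ a : ℕ → ℕ, (∀ q, (a q).Coprime q) →
      ∑ q ∈ Icc 1 ⌊(k : ℝ) ^ δ⌋₊, |theta x y q (a q) - theta x y 1 0 / (Nat.totient q : ℝ)| ≤
        ((y : ℝ) - x) / Real.log k ^ A

open Classical in
/-- There are `δ, c > 0` such that for every `A` and all large `N`, for all `k ≤ N` with at most `N ^ (1 - δ)` exceptions: every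
subinterval `(x, y)` of `((2k-1)², (2k+1)²)` of length at least `k ^ (1 - δ)` satisfies `θ(x, y) ≥ c (y - x)` and
`∑_{q ≤ k ^ δ} |θ(x, y; q, a_q) - θ(x, y)/φ(q)| ≤ (y - x)/(log k) ^ A` for all choices of classes `a_q` prime to `q`. -/
theorem result : ∃ δ c : ℝ, 0 < δ ∧ 0 < c ∧ ∀ A : ℕ, ∃ N₀ : ℕ, ∀ N : ℕ, N₀ ≤ N →
    (#((Icc 1 N).filter (fun k => ¬ Good δ c A k)) : ℝ) ≤ (N : ℝ) ^ (1 - δ) := by
  obtain ⟨δ, c, hδ, hc, hG⟩ := Pool.Agent.L7h29.BP.s_BVJ Pool.Agent.L7h18.BP.bvp Pool.Agent.L7h18.BW.s_POOR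
  obtain ⟨μ, hμd⟩ : ∃ μ, μ = min δ (1 / 4) := ⟨_, rfl⟩
  have hμ : 0 < μ := by rw [hμd]; exact lt_min hδ (by norm_num)
  have hμδ : μ ≤ δ := by rw [hμd]; exact min_le_left _ _
  have hμ4 : μ ≤ 1 / 4 := by rw [hμd]; exact min_le_right _ _
  refine ⟨μ / 2, c, by positivity, hc, fun A => ?_⟩
  obtain ⟨X₀, hX⟩ := hG A
  obtain ⟨k₀, hk₀, hk₀'⟩ := Pool.Agent.L7h18.BP.k_len hμ (by linarith)
  obtain ⟨N₁, hN₁⟩ := Pool.Agent.L7h18.BP.few_k hμ (by linarith)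
  obtain ⟨N₂, hN₂⟩ := eventually_atTop.1 (((tendsto_rpow_atTop (by linarith : (0 : ℝ) < 1 - μ)).comp
    tendsto_natCast_atTop_atTop).eventually_ge_atTop (max (k₀ : ℝ) X₀ + 1))
  refine ⟨max N₁ N₂, fun N hN => ?_⟩
  -- exceptional points
  have hBex : ∀ i : ℕ, ∃ B : Finset ℕ, (B.card : ℝ) ≤ (Pool.Agent.L7h18.BP.XX i : ℝ) ^ (1 / 2 - μ) ∧
      (X₀ ≤ Pool.Agent.L7h18.BP.XX i → ∀ x y : ℕ, Pool.Agent.L7h18.BP.XX i ≤ x → y ≤ 2 * Pool.Agent.L7h18.BP.XX i →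
      (x : ℝ) + (Pool.Agent.L7h18.BP.XX i : ℝ) ^ (1 / 2 - μ) ≤ y → (y : ℝ) ≤ 1.1 * x → Disjoint B (Icc x y) →
      c * ((y : ℝ) - x) ≤ theta x y 1 0 ∧ ∀ a : ℕ → ℕ, (∀ q, (a q).Coprime q) →
        ∑ q ∈ Icc 1 ⌊(Pool.Agent.L7h18.BP.XX i : ℝ) ^ δ⌋₊,
          |theta x y q (a q) - theta x y 1 0 / (Nat.totient q : ℝ)| ≤
          ((y : ℝ) - x) / Real.log (Pool.Agent.L7h18.BP.XX i) ^ A) := by
    intro i
    have hX1 : (1 : ℝ) ≤ Pool.Agent.L7h18.BP.XX i := by exact_mod_cast Pool.Agent.L7h18.BP.XX_pos i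
    by_cases hi : X₀ ≤ Pool.Agent.L7h18.BP.XX i
    · obtain ⟨B, hB1, hB2⟩ := hX (Pool.Agent.L7h18.BP.XX i) hi
      have h1 : (Pool.Agent.L7h18.BP.XX i : ℝ) ^ (1 / 2 - δ) ≤ (Pool.Agent.L7h18.BP.XX i : ℝ) ^ (1 / 2 - μ) :=
        Real.rpow_le_rpow_of_exponent_le hX1 (by linarith)
      exact ⟨B, hB1.trans h1, fun _ x y h2 h3 h4 h5 h6 => hB2 x y h2 h3 (by linarith) h5 h6⟩
    · exact ⟨∅, by rw [card_empty, Nat.cast_zero]; positivity, fun h => absurd h hi⟩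
  choose B hB1 hB2 using hBex
  have h1 := hN₁ N ((le_max_left _ _).trans hN) B hB1
  have h2 := hN₂ N ((le_max_right _ _).trans hN)
  refine le_trans ?_ h1
  rw [Nat.cast_le]
  apply card_le_card
  intro k hk
  rw [mem_filter] at hk ⊢
  obtain ⟨hkI, hbad⟩ := hk
  refine ⟨hkI, ?_⟩
  by_contra hcon
  push Not at hcon
  obtain ⟨hc1, hc2⟩ := hcon
  apply hbad
  intro x y hx hy hxy
  have hkb : max (k₀ : ℝ) X₀ + 1 < k := lt_of_le_of_lt h2 hc1
  have hkk : k₀ ≤ k := by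
    have : (k₀ : ℝ) ≤ k := by linarith [le_max_left (k₀ : ℝ) X₀]
    exact_mod_cast this
  have hkX : (X₀ : ℝ) ≤ k := by linarith [le_max_right (k₀ : ℝ) X₀]
  have hk100 : 100 ≤ k := hk₀.trans hkk
  have hkr : (100 : ℝ) ≤ k := by exact_mod_cast hk100
  obtain ⟨s1, s2, s3⟩ := Pool.Agent.L7h18.BP.k_sizes hk100 hx hy
  obtain ⟨i, hi1, hi2⟩ := Pool.Agent.L7h18.BP.XX_find (x := x) (by
    have : (4 : ℝ) ≤ x := by nlinarith
    exact_mod_cast this) s3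
  have hXx : (Pool.Agent.L7h18.BP.XX i : ℝ) ≤ x := by exact_mod_cast hi1
  have hxyr : (x : ℝ) ≤ y := by
    have : 0 < (k : ℝ) ^ (1 - μ / 2) := by positivity
    linarith
  have hXX : (x : ℝ) ≤ 2 * Pool.Agent.L7h18.BP.XX i := by
    have : (y : ℝ) ≤ 2 * Pool.Agent.L7h18.BP.XX i := by exact_mod_cast hi2
    linarith
  have hX41 : (Pool.Agent.L7h18.BP.XX i : ℝ) ≤ 4.1 * (k : ℝ) ^ 2 := hXx.trans (hxyr.trans s2)
  have hXk : (k : ℝ) ≤ Pool.Agent.L7h18.BP.XX i := by nlinarith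
  have hXi0 : X₀ ≤ Pool.Agent.L7h18.BP.XX i := by
    have : (X₀ : ℝ) ≤ Pool.Agent.L7h18.BP.XX i := by linarith
    exact_mod_cast this
  have hlen : (x : ℝ) + (Pool.Agent.L7h18.BP.XX i : ℝ) ^ (1 / 2 - μ) ≤ y := by
    have h3 := hk₀' k hkk (Pool.Agent.L7h18.BP.XX i) hX41
    have h4 : (k : ℝ) ^ (1 - μ) ≤ (k : ℝ) ^ (1 - μ / 2) :=
      Real.rpow_le_rpow_of_exponent_le (by linarith) (by linarith)
    linarith
  have hdis : Disjoint (B i) (Icc x y) := by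
    rw [disjoint_left]
    intro b hb hb'
    rw [mem_Icc] at hb'
    refine absurd (hb'.2.trans hy) (not_le.2 (hc2 i ?_ b hb (hx.trans hb'.1)))
    have : x ≤ y := by exact_mod_cast hxyr
    exact hi1.trans (this.trans hy)
  obtain ⟨hfin1, hfin2⟩ := hB2 i hXi0 x y hi1 hi2 hlen s3 hdis
  refine ⟨hfin1, fun a ha => ?_⟩
  have hyx0 : 0 ≤ (y : ℝ) - x := by linarith
  have hlk : 0 < Real.log k := Real.log_pos (by linarith)
  have hlX : Real.log k ≤ Real.log (Pool.Agent.L7h18.BP.XX i) := Real.log_le_log (by linarith) hXk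
  have hfl : ⌊(k : ℝ) ^ (μ / 2)⌋₊ ≤ ⌊(Pool.Agent.L7h18.BP.XX i : ℝ) ^ δ⌋₊ := by
    apply Nat.floor_le_floor
    calc (k : ℝ) ^ (μ / 2) ≤ (k : ℝ) ^ δ := Real.rpow_le_rpow_of_exponent_le (by linarith) (by linarith)
      _ ≤ _ := Real.rpow_le_rpow (by linarith) hXk hδ.le
  calc ∑ q ∈ Icc 1 ⌊(k : ℝ) ^ (μ / 2)⌋₊, |theta x y q (a q) - theta x y 1 0 / (Nat.totient q : ℝ)|
      ≤ ∑ q ∈ Icc 1 ⌊(Pool.Agent.L7h18.BP.XX i : ℝ) ^ δ⌋₊,
          |theta x y q (a q) - theta x y 1 0 / (Nat.totient q : ℝ)| :=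
        sum_le_sum_of_subset_of_nonneg (Icc_subset_Icc_right hfl) (fun _ _ _ => abs_nonneg _)
    _ ≤ ((y : ℝ) - x) / Real.log (Pool.Agent.L7h18.BP.XX i) ^ A := hfin2 a ha
    _ ≤ ((y : ℝ) - x) / Real.log k ^ A :=
        div_le_div_of_nonneg_left hyx0 (by positivity) (pow_le_pow_left₀ hlk.le hlX A)

end Pool.Agent.Results.MP_5f6ee5_nt.PrimesInProgressions
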