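import Pool.Agent.L7h18.BP.All

/-!
# A positive proportion of the integers between consecutive odd squares begins a short cluster of primes

For all `k ≤ N` with at most `N ^ (1 - δ)` exceptions, every subinterval `(x, y)` of `((2k-1)², (2k+1)²)` of length at least
`k ^ (1 - δ)` contains at least `c (y - x)` integers `n` such that `(n, n + λ log n]` is contained in it and contains at
least `m` primes; `m` and `λ > 0` are arbitrary.

Method. (1) Primes in windows `(e^u, e^(u+κ)]`, `κ = e^(-(1/2+μ) Y)`, `|u - Y| ≤ 1/4`, in progressions to all moduli up to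
`e^(δ Y)` (Bombieri-Vinogradov type, all savings of powers of `Y`), for all but `e^((1/2-μ) Y)` windows: Heath-Brown's
identity with integer frequencies; the characters and frequencies at which all ten factors are large are treated pointwise
(Halász-Montgomery over pairs of characters and frequencies, Vinogradov-Korobov and Siegel-Walfisz for the moduli up to powers
of `Y`, a short zero free region being replaced by bounds for smooth and Moebius factors), all others in mean square by
the hybrid large sieve. (2) The density of the primes is positive in all but `e^(0.306 Y)` windows (starting files).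
(3) The sieve of Maynard and Tao in such windows, with coloured positions and moments of the number of rough positions.

Joint work with helper23, helper26, helper28, helper29, helper37, helper47, helper50, helper76, helper88, helper97.
-/

set_option autoImplicit false

namespace Pool.Agent.Results.MP_5f6ee5_nt.ShortClusters

open Finset

open Classical in
/-- the number of the integers `n` with `x < n` and `n + lam log n < y` such that at least `m` primes `p` satisfy
`n < p ≤ n + lam log n` -/
noncomputable def clusters (m : ℕ) (lam : ℝ) (x y : ℕ) : ℕ :=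
  #((Ioo x y).filter (fun n : ℕ => (n : ℝ) + lam * Real.log n < y ∧
    m ≤ #((Ioc n ⌊(n : ℝ) + lam * Real.log n⌋₊).filter Nat.Prime)))

/-- all subintervals of `((2k-1)², (2k+1)²)` of length at least `k ^ (1 - δ)` contain the positive proportion `c` of
short clusters -/
def Good (δ : ℝ) (m : ℕ) (lam c : ℝ) (k : ℕ) : Prop :=
  ∀ x y : ℕ, (2 * k - 1) ^ 2 ≤ x → y ≤ (2 * k + 1) ^ 2 → (x : ℝ) + (k : ℝ) ^ (1 - δ) ≤ y →
    c * ((y : ℝ) - x) ≤ clusters m lam x y

open Classical in
/-- For all `k ≤ N` with at most `N ^ (1 - δ)` exceptions: in all subintervals of the interval between the consecutive odd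
squares `(2k-1)²` and `(2k+1)²` of length at least `k ^ (1 - δ)` a positive proportion of the integers is followed by `m`
primes at distance at most `λ log n`. -/
theorem result : ∃ δ : ℝ, 0 < δ ∧ ∀ (m : ℕ) (lam : ℝ), 0 < lam → ∃ (c : ℝ) (N₀ : ℕ), 0 < c ∧ ∀ N : ℕ, N₀ ≤ N →
    (#((Icc 1 N).filter (fun k => ¬ Good δ m lam c k)) : ℝ) ≤ (N : ℝ) ^ (1 - δ) := by
  obtain ⟨δ, δ₁, c₀, hδ, hδ₁, hδ₁', hc₀, hI⟩ := Pool.Agent.L7h18.BP.s_IKG Pool.Agent.L7h18.BP.ik
  refine ⟨δ, hδ, fun m lam hlam => ?_⟩
  have hW := Pool.Agent.L7h18.BP.HW_clb Pool.Agent.L7h18.BP.eqw Pool.Agent.L7h18.BP.clb hδ₁ hδ₁' hc₀ m lam hlam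
  obtain ⟨c, N₀, hc, h⟩ := hI _ 0 hW lam (fun n => lam * Real.log n) hlam.le (fun n _ => by
    have : 0 ≤ lam := hlam.le
    linarith)
  refine ⟨c, N₀, hc, fun N hN => ?_⟩
  refine le_trans ?_ (h N hN)
  rw [Nat.cast_le]
  apply card_le_card
  intro k hk
  rw [mem_filter] at hk ⊢
  refine ⟨hk.1, fun hg => hk.2 ?_⟩
  intro x y hx hy hxy
  have h1 := hg x y hx hy hxy
  rw [pow_zero, div_one] at h1
  refine h1.trans (le_of_eq ?_)
  rw [Nat.cast_inj]
  unfold clusters
  congr 1
  exact filter_congr fun n _ => Iff.rfl

end Pool.Agent.Results.MP_5f6ee5_nt.ShortClusters
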